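import Pool.Agent.H356R3.HT.Top
import Pool.Agent.H356R3.HT.SAN
import Pool.Agent.H356R3.HT.SIGN
import Pool.Agent.H356R3.HT.DER
import Pool.Agent.H356R3.HT.VAL
import Pool.Agent.H356R3.HT.TRAN
import Pool.Agent.H356R3.HT.REGU
import Pool.Agent.H356R3.HT.PAR
import Pool.Agent.H356R3.HT.FG
import Pool.Agent.H356R3.HT.LOW
import Pool.Agent.H356R3.HT.GEO
import Pool.Agent.H356R3.HT.LIN
import Pool.Agent.H356R3.HT.BODY
import Pool.Agent.Results.MP_ccd96b_co.MassMax

/-!
# The maximal value of `c_tr^τ` for `τ = HT`, `m`, `m*`, in every dimension `d ≥ 2`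

The cases `m` and `m*` are quoted from the file `MassMax` of this problem.  New here is the case of
the Holmes-Thompson volume.
-/

set_option autoImplicit false
open MeasureTheory Set Pointwise

namespace Pool.Agent.Results.MP_ccd96b_co.AllVolumes

variable {d : ℕ}

/-- A convex body: a compact convex set with nonempty interior. -/
structure IsConvexBody (K : Set (Fin d → ℝ)) : Prop where
  isCompact : IsCompact K
  convex : Convex ℝ K
  interior_nonempty : (interior K).Nonempty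

/-- The unit ball `M = (K - K)/2` of the relative norm of `K`. -/
def relBall (K : Set (Fin d → ℝ)) : Set (Fin d → ℝ) := (1 / 2 : ℝ) • (K - K)

/-- The volume `κ_n` of the Euclidean unit ball of `ℝ ^ n`. -/
noncomputable def kappa (n : ℕ) : ENNReal := volume {x : Fin n → ℝ | ∑ i, x i ^ 2 ≤ 1}

/-- The polar set of `M`. -/
def polar (M : Set (Fin d → ℝ)) : Set (Fin d → ℝ) := {y | ∀ x ∈ M, ∑ i, x i * y i ≤ 1}

/-- The Holmes-Thompson volume of `S` for the norm with unit ball `M`. -/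
noncomputable def htVol (M S : Set (Fin d → ℝ)) : ENNReal :=
  volume (polar M) / kappa d * volume S

/-- The cross-polytope with centre `c` and vertices `c + v i`, `c - v i`. -/
def crossPolytope (c : Fin d → ℝ) (v : Fin d → Fin d → ℝ) : Set (Fin d → ℝ) :=
  convexHull ℝ (Set.range (fun i => c + v i) ∪ Set.range (fun i => c - v i))

/-- The maximal volume of a cross-polytope inscribed in `M`. -/
noncomputable def maxCross (M : Set (Fin d → ℝ)) : ENNReal :=
  ⨆ (c : Fin d → ℝ) (v : Fin d → Fin d → ℝ) (_ : crossPolytope c v ⊆ M),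
    volume (crossPolytope c v)

/-- Gromov's mass of `S` for the norm with unit ball `M`. -/
noncomputable def massVol (M S : Set (Fin d → ℝ)) : ENNReal :=
  ENNReal.ofReal (2 ^ d / d.factorial) / maxCross M * volume S

/-- The parallelotope `{c + ∑ tᵢ vᵢ : |tᵢ| ≤ 1}`. -/
def parallelotope (c : Fin d → ℝ) (v : Fin d → Fin d → ℝ) : Set (Fin d → ℝ) :=
  {x | ∃ t : Fin d → ℝ, (∀ i, |t i| ≤ 1) ∧ x = c + ∑ i, t i • v i}

/-- The minimal volume of a parallelotope containing `M`. -/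
noncomputable def minBox (M : Set (Fin d → ℝ)) : ENNReal :=
  ⨅ (c : Fin d → ℝ) (v : Fin d → Fin d → ℝ) (_ : M ⊆ parallelotope c v),
    volume (parallelotope c v)

/-- Gromov's mass* (the Benson volume) of `S` for the norm with unit ball `M`. -/
noncomputable def massStarVol (M S : Set (Fin d → ℝ)) : ENNReal :=
  ENNReal.ofReal (2 ^ d) / minBox M * volume S

/-- `c_tr(K)` for the normalised volume `μ`: the maximal volume, in the relative norm of `K`, of
the convex hull of the union of `K` and a translate of `K` that meets `K`. -/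
noncomputable def cTr (μ : Set (Fin d → ℝ) → Set (Fin d → ℝ) → ENNReal) (K : Set (Fin d → ℝ)) :
    ENNReal :=
  ⨆ (p : Fin d → ℝ) (_ : ((p +ᵥ K) ∩ K).Nonempty), μ (relBall K) (convexHull ℝ (K ∪ (p +ᵥ K)))

/-- `w_a(z) = √(1 + 4 z (1-z)^n / a)` -/
noncomputable def w (n : ℕ) (a z : ℝ) : ℝ := √(1 + 4 * (z * (1 - z) ^ n) / a)

theorem body_iff (K : Set (Fin d → ℝ)) : Helper481.MS.IsConvexBody K ↔ IsConvexBody K :=
  ⟨fun h => ⟨h.1, h.2, h.3⟩, fun h => ⟨h.1, h.2, h.3⟩⟩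

theorem set_eq (μ : Set (Fin d → ℝ) → Set (Fin d → ℝ) → ENNReal) :
    {c : ENNReal | ∃ K : Set (Fin d → ℝ), Helper481.MS.IsConvexBody K ∧ MassMax.cTr μ K = c} =
    {c : ENNReal | ∃ K : Set (Fin d → ℝ), IsConvexBody K ∧ cTr μ K = c} := by
  ext c
  exact exists_congr fun K => and_congr (body_iff K) Iff.rfl

/-- **Theorem.** Let `d ≥ 2`, `n = d - 1`.

* The equation `log (1/a) = (1/2) ∫_0^1 (1 - 1/w_a(z)) dz/z` has exactly one solution `a` in
  `(0, 1)`.
* For this `a`, the maximum of `c_tr^HT(K)` over all convex bodies `K` of `ℝ ^ d` is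
  `4 κ_n² / κ_d * a (1 + V)²` with `V = (1/a) ∫_0^1 (1-z)^n / w_a(z) dz`.
* The maximum of `c_tr^m` is `κ_d + 2 κ_{d-1}`.
* The maximum of `c_tr^{m*}` is `(d + 1) 2 ^ d`. -/
theorem result (d : ℕ) (hd : 2 ≤ d) :
    (∃! a : ℝ, 0 < a ∧ a < 1 ∧
      Real.log (1 / a) = 1 / 2 * ∫ z in (0:ℝ)..1, (1 - 1 / w (d - 1) a z) / z) ∧
    (∀ a : ℝ, 0 < a → a < 1 →
      Real.log (1 / a) = 1 / 2 * ∫ z in (0:ℝ)..1, (1 - 1 / w (d - 1) a z) / z →
      IsGreatest {c : ENNReal | ∃ K : Set (Fin d → ℝ), IsConvexBody K ∧ cTr htVol K = c}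
        (4 * kappa (d - 1) ^ 2 / kappa d * ENNReal.ofReal
          (a * (1 + 1 / a * ∫ z in (0:ℝ)..1, (1 - z) ^ (d - 1) / w (d - 1) a z) ^ 2))) ∧
    IsGreatest {c : ENNReal | ∃ K : Set (Fin d → ℝ), IsConvexBody K ∧ cTr massVol K = c}
      (kappa d + 2 * kappa (d - 1)) ∧
    IsGreatest {c : ENNReal | ∃ K : Set (Fin d → ℝ), IsConvexBody K ∧ cTr massStarVol K = c}
      (ENNReal.ofReal ((d + 1) * 2 ^ d)) := by
  have hM := MassMax.result d (by omega)
  have hU := H356R3.HT.crit_unique H356R3.HT.SIGN_proof (d - 1) (by omega)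
  have hiff : ∀ a : ℝ, (0 < a ∧ a < 1 ∧
      Real.log (1 / a) = 1 / 2 * ∫ z in (0:ℝ)..1, (1 - 1 / w (d - 1) a z) / z) ↔
      H356R3.HT.IsCrit (d - 1) a := by
    intro a
    unfold H356R3.HT.IsCrit H356R3.HT.Qf H356R3.HT.gz w
    rw [sub_eq_zero]
  have hM1 : IsGreatest {c : ENNReal | ∃ K : Set (Fin d → ℝ), IsConvexBody K ∧ cTr massVol K = c}
      (kappa d + 2 * kappa (d - 1)) := by
    rw [← set_eq]
    exact hM.1
  have hM2 : IsGreatest
      {c : ENNReal | ∃ K : Set (Fin d → ℝ), IsConvexBody K ∧ cTr massStarVol K = c}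
      (ENNReal.ofReal ((d + 1) * 2 ^ d)) := by
    rw [← set_eq]
    exact hM.2.2.1
  refine ⟨?_, ?_, hM1, hM2⟩
  · exact (existsUnique_congr hiff).2 hU
  · intro a ha0 ha1 ha
    have hc : H356R3.HT.IsCrit (d - 1) a := (hiff a).1 ⟨ha0, ha1, ha⟩
    obtain ⟨n, rfl⟩ : ∃ n, d = n + 1 := ⟨d - 1, by omega⟩
    rw [Nat.add_sub_cancel] at hc ⊢
    have hn : 1 ≤ n := by omega
    have hup : ∀ K : Set (Fin (n + 1) → ℝ), IsConvexBody K →
        cTr htVol K ≤ 4 * kappa n ^ 2 / kappa (n + 1) * ENNReal.ofReal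
          (a * (1 + 1 / a * ∫ z in (0:ℝ)..1, (1 - z) ^ n / w n a z) ^ 2) :=
      fun K hK => H356R3.HT.upper H356R3.HT.SAN_proof H356R3.HT.SIGN_proof H356R3.HT.DER_proof
        H356R3.HT.VAL_proof H356R3.HT.TRAN_proof H356R3.HT.REGU_proof H356R3.HT.GEO_proof
        H356R3.HT.LIN_proof n hn a hc K ((body_iff K).2 hK)
    obtain ⟨K, hK, hle⟩ := H356R3.HT.lower H356R3.HT.VAL_proof
      (H356R3.HT.LOW_proof H356R3.HT.PAR_proof (H356R3.HT.FG_proof H356R3.HT.PAR_proof))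
      H356R3.HT.BODY_proof n hn a hc
    refine ⟨⟨K, (body_iff K).1 hK, le_antisymm (hup K ((body_iff K).1 hK)) hle⟩, ?_⟩
    rintro _ ⟨K', hK', rfl⟩
    exact hup K' hK'

end Pool.Agent.Results.MP_ccd96b_co.AllVolumes
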